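import Pool.Agent.H95.DR.Targets
import Pool.Agent.H29.DF.EXE

/-!
# (FDU) the level determines the discriminant and the conductor (real quadratic fields)
-/

set_option autoImplicit false

open MeasureTheory Set Filter NumberField
open scoped Real nonZeroDivisors Matrix MatrixGroups

namespace Pool.Agent.H95.DF

open Pool.Agent.H31.CN Pool.Agent.H89.FM Pool.Agent.H61.FM Pool.Agent.H89.FC Pool.Agent.H95.FC
open Pool.Agent.H89.DF Pool.Agent.H95.DR

theorem pf_FDUr : T_FDUr := by
  intro K K' _ _ _ _ D D' f f' σ σ' τ τ' h h' hf hf' hl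
  have hsq : IsSquare (discr K * discr K') := by
    rw [h.dis, h'.dis]
    have h1 : D * D' * f ^ 2 = (D' * f') ^ 2 := by
      calc D * D' * f ^ 2 = D' * (D * f ^ 2) := by ring
        _ = D' * (D' * f' ^ 2) := by rw [hl]
        _ = (D' * f') ^ 2 := by ring
    have h2 : f ∣ D' * f' := by
      have h3 : f ^ 2 ∣ (D' * f') ^ 2 := ⟨D * D', by rw [← h1]; ring⟩
      exact (Nat.pow_dvd_pow_iff (by norm_num)).1 h3
    obtain ⟨m, hm⟩ := h2
    have h4 : D * D' = m * m := by
      rw [hm] at h1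
      have h5 : 0 < f ^ 2 := by positivity
      refine Nat.eq_of_mul_eq_mul_right h5 ?_
      rw [h1]
      ring
    exact ⟨(m : ℤ), by exact_mod_cast h4⟩
  have hd := Pool.Agent.H29.DF.discr_eq K K' h.rk h'.rk hsq
  rw [h.dis, h'.dis] at hd
  have hDD : D = D' := by exact_mod_cast hd
  refine ⟨hDD, ?_⟩
  subst hDD
  have h3 : f ^ 2 = f' ^ 2 := Nat.eq_of_mul_eq_mul_left h.pos hl
  exact (Nat.pow_left_injective (n := 2) (by norm_num)) h3

end Pool.Agent.H95.DF
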