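import Pool.Agent.H95.DR.Targets
import Pool.Agent.H14.FC.ALC1

/-!
# (LC1) the coefficients, real quadratic fields
-/

set_option autoImplicit false

open MeasureTheory Set Filter NumberField
open scoped Real nonZeroDivisors Matrix MatrixGroups

namespace Pool.Agent.H95.DF

open Pool.Agent.H31.CN Pool.Agent.H89.FM Pool.Agent.H61.FM Pool.Agent.H89.FC Pool.Agent.H95.FC
open Pool.Agent.H89.DF Pool.Agent.H95.DR

theorem pf_LC1r (hPRN : Pool.Agent.H95.CF.T_PRN) : T_LC1r := by
  intro K _ _ σ σ' f κ ν ψ hψ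
  refine ⟨?_, ?_, ?_⟩
  · unfold lc
    rw [Pool.Agent.H14.FC.Nn_one_eq, Finset.sum_singleton, Pool.Agent.H14.FC.coe_one_top]
    exact hψ.one
  · intro n hn
    unfold lc
    refine Finset.sum_eq_zero fun I hI => hψ.van _ fun h => hn ?_
    have h1 : (I : Ideal (𝓞 K)) ≠ ⊥ := nonZeroDivisors.coe_ne_zero I
    have h2 := (hPRN K f I h1).1 h
    rw [mem_Nn] at hI
    have h3 : Ideal.absNorm (I : Ideal (𝓞 K)) = n := hI
    rwa [h3] at h2
  · intro D η hR hη
    have htop : Ideal.span {((η : (𝓞 K)ˣ) : 𝓞 K)} = ⊤ := Ideal.span_singleton_eq_top.2 η.isUnit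
    have hrat : Pool.Agent.H95.CF.Rat K f f (η : 𝓞 K) := by
      refine ⟨?_, hη.rat⟩
      rw [htop]
      refine ⟨?_, ?_⟩
      · exact fun h => bot_ne_top h.symm
      · exact top_sup_eq _
    have h1 := hψ.prc _ hrat
    rw [htop, hψ.one] at h1
    unfold tyr at h1
    rw [hη.nrm, Real.sign_one] at h1
    simpa using h1.symm

end Pool.Agent.H95.DF
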