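import Pool.Agent.H95.DR.Targets
import Pool.Agent.H21.CF.PDE2

/-!
# (PAR) proportional vectors
-/

set_option autoImplicit false

open MeasureTheory Set Filter NumberField
open scoped Real nonZeroDivisors Matrix MatrixGroups

namespace Pool.Agent.H95.DF

open Pool.Agent.H31.CN Pool.Agent.H89.FM Pool.Agent.H61.FM Pool.Agent.H89.FC Pool.Agent.H95.FC
open Pool.Agent.H89.DF Pool.Agent.H95.DR
open Pool.Agent.H21.CF Pool.Agent.H37.CF

theorem pf_PARr : T_PARr := by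
  intro K _ _ σ σ' f I α β Q b hf hobc hVB v v' hv hv' hU hU' hdt
  have hn := hVB.nrm v hv
  have hn' := hVB.nrm v' hv'
  have hs := hVB.spn v hv
  have hs' := hVB.spn v' hv'
  unfold nm at hn hn'
  obtain ⟨N, hN⟩ : ∃ N, N = Ideal.absNorm (b v : Ideal (𝓞 K)) := ⟨_, rfl⟩
  obtain ⟨N', hN'⟩ : ∃ N, N = Ideal.absNorm (b v' : Ideal (𝓞 K)) := ⟨_, rfl⟩
  have hN1 : 1 ≤ N := by
    rw [hN]
    exact Ideal.absNorm_pos_of_nonZeroDivisors (b v)
  have hN1' : 1 ≤ N' := by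
    rw [hN']
    exact Ideal.absNorm_pos_of_nonZeroDivisors (b v')
  rw [← hN] at hn
  rw [← hN'] at hn'
  unfold Uv at hU hU'
  have hU0 := hU
  have habs : ∀ x : ℤ, IsCoprime x (f : ℤ) → IsCoprime |x| (f : ℤ) := by
    intro x hx
    rcases abs_choice x with h | h
    · rw [h]
      exact hx
    · rw [h]
      exact hx.neg_left
  replace hU := habs _ hU
  replace hU' := habs _ hU'
  rw [← hn] at hU
  rw [← hn'] at hU'
  have hNf : N.Coprime f := Nat.isCoprime_iff_coprime.1 hU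
  have hNf' : N'.Coprime f := Nat.isCoprime_iff_coprime.1 hU'
  have hprB : Pool.Agent.H95.CF.Pr K f (b v : Ideal (𝓞 K)) := pr_of_norm hN.symm hN1 hNf
  have hprB' : Pool.Agent.H95.CF.Pr K f (b v' : Ideal (𝓞 K)) := pr_of_norm hN'.symm hN1' hNf'
  have hI0 : (I : Ideal (𝓞 K)) ≠ 0 := nonZeroDivisors.coe_ne_zero I
  have he0 : lv K α β v ≠ 0 := fun h0 => hv (hobc.inj v h0)
  -- multiples
  have hex : ∀ u : ℤ × ℤ, ∃ x : 𝓞 K, (N : 𝓞 K) * lv K α β u = lv K α β v * x := by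
    intro u
    have h1 : (b v : Ideal (𝓞 K)) ∣ Ideal.span {(N : 𝓞 K)} := by
      rw [Ideal.dvd_span_singleton, hN]
      exact Ideal.absNorm_mem _
    obtain ⟨Bs, hBs⟩ := h1
    have h2 : (N : 𝓞 K) * lv K α β u ∈ Ideal.span {(N : 𝓞 K)} * (I : Ideal (𝓞 K)) :=
      Ideal.mul_mem_mul (Ideal.mem_span_singleton_self _) ((hobc.mem _).2 ⟨u, rfl⟩)
    rw [hBs, mul_comm (b v : Ideal (𝓞 K)) Bs, mul_assoc, ← hs] at h2
    exact Ideal.mem_span_singleton.1 (Ideal.mul_le_right h2)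
  obtain ⟨a, ha⟩ := hex v'
  have hideal : Ideal.span {a} * (b v : Ideal (𝓞 K)) =
      Ideal.span {(N : 𝓞 K)} * (b v' : Ideal (𝓞 K)) := by
    apply mul_right_cancel₀ hI0
    rw [mul_assoc, ← hs, mul_assoc, ← hs', Ideal.span_singleton_mul_span_singleton,
      Ideal.span_singleton_mul_span_singleton, ha, mul_comm a]
  have hprN : Pool.Agent.H95.CF.Pr K f (Ideal.span {(N : 𝓞 K)}) := pr_nat hN1 hNf
  have hpra : Pool.Agent.H95.CF.Pr K f (Ideal.span {a}) := by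
    have h1 : Pool.Agent.H95.CF.Pr K f (Ideal.span {a} * (b v : Ideal (𝓞 K))) := by
      rw [hideal]
      exact pr_mul.2 ⟨hprN, hprB'⟩
    exact (pr_mul.1 h1).1
  refine ⟨a, N, hN1, ⟨hpra, ?_⟩, rat_nat hN1 hNf, ?_, hideal⟩
  · obtain ⟨q, r, hqr⟩ := hU0
    obtain ⟨k, hk⟩ := hdt
    have hfd : (f : ℤ) = (f : ℤ) * 1 := (mul_one _).symm
    have hk' : Pool.Agent.H95.CF.dt v v' = f * k := by
      rw [← hk]
      rfl
    obtain ⟨t, u, h1, h2⟩ := prop_mod hqr hfd hk'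
    obtain ⟨x, hx⟩ := hex u
    refine ⟨t * N, ?_⟩
    rw [mem_fspan]
    refine ⟨x, ?_⟩
    apply mul_left_cancel₀ he0
    have h1' : (v'.1 : 𝓞 K) = (t : 𝓞 K) * v.1 + (f : 𝓞 K) * u.1 := by
      rw [h1]
      push_cast
      ring
    have h2' : (v'.2 : 𝓞 K) = (t : 𝓞 K) * v.2 + (f : 𝓞 K) * u.2 := by
      rw [h2]
      push_cast
      ring
    unfold lv at ha hx ⊢
    rw [h1', h2'] at ha
    rw [Int.cast_mul, Int.cast_natCast]
    linear_combination (-1 : 𝓞 K) * ha + (f : 𝓞 K) * hx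
  · rw [mul_comm a, ← ha]

end Pool.Agent.H95.DF
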