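import Pool.Agent.H95.DR.Targets

/-!
# Row APV of `dfx_modules`: the twisted second moment for one field, conductor and parity
-/

set_option autoImplicit false

open MeasureTheory Set Filter NumberField
open scoped Real nonZeroDivisors Matrix MatrixGroups
open Pool.Agent.H31.CN Pool.Agent.H89.FM Pool.Agent.H61.FM Pool.Agent.H89.FC Pool.Agent.H95.FC
open Pool.Agent.H89.DF Pool.Agent.H95.DR

namespace Pool.Agent.H95.DF

theorem norm_cpow_half_sq {x : ℝ} (hx : 0 < x) (s : ℂ) : ‖((x : ℝ) : ℂ) ^ (s / 2)‖ ^ 2 = x ^ s.re := by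
  rw [Complex.norm_cpow_eq_rpow_re_of_pos hx, ← Real.rpow_natCast, ← Real.rpow_mul hx.le]
  congr 1
  have h : (s / 2).re = s.re / 2 := by
    rw [show s / 2 = s / ((2 : ℝ) : ℂ) by norm_num, Complex.div_ofReal_re]
  rw [h]
  push_cast
  ring

theorem sq_half (a b : ℂ) : ‖(a + b) / 2‖ ^ 2 ≤ (‖a‖ ^ 2 + ‖b‖ ^ 2) / 2 := by
  have h1 : ‖(a + b) / 2‖ = ‖a + b‖ / 2 := by
    rw [norm_div]
    norm_num
  rw [h1]
  have h2 := norm_add_le a b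
  have h3 := norm_nonneg (a + b)
  nlinarith [sq_nonneg (‖a‖ - ‖b‖), norm_nonneg a, norm_nonneg b]

theorem pf_PVFr (hLF2r : T_LF2r) (hORTr : T_ORTr) (hBES : T_BES) (hHOLr : T_HOLr)
    (hPBT : T_PBT) (hPHX : T_PHX) (hUWN : T_UWN) : T_PVFr := by
  classical
  intro K _ _ D f σ σ' hRQ hf R κ Ψ ν F hΨ m s N α hs hs1
  obtain ⟨hP0, hn0, -⟩ := hUWN K D f σ σ' hRQ R.η R.un
  have hP : 0 < R.P := hP0
  have hn : (R.n : ℂ) ≠ 0 := by
    have h1 : 0 < R.n := hn0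
    exact_mod_cast h1.ne'
  obtain ⟨hB1, hB2, -, -⟩ := hPBT K σ σ'
  have hmemJ : ∀ j ∈ R.J, j.2 ∈ R.T j.1 := fun j hj => (Finset.mem_sigma.1 hj).2
  have hPB : ∀ j ∈ R.J, PB σ σ' (Ideal.absNorm (R.I j.1 : Ideal (𝓞 K))) (R.v₁ j.1 j.2)
      (R.v₂ j.1 j.2) (R.fo j.1 j.2) := by
    intro j hj
    have h1 := hB1 (R.I j.1 : Ideal (𝓞 K)) (R.α j.1) (R.β j.1) (R.Q j.1)
      (nonZeroDivisors.coe_ne_zero _) (R.ob j.1)
    exact (hB2 _ (R.α j.1) (R.β j.1) (R.Q j.1) f j.2 (R.W j.1 j.2) h1 hf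
      ((R.lt j.1).one j.2 (hmemJ j hj))).1
  have hv1 : ∀ j ∈ R.J, R.v₁ j.1 j.2 ≠ 0 := by
    intro j hj h0
    have h1 := (R.ob j.1).inj j.2 h0
    have h2 := (R.lt j.1).one j.2 (hmemJ j hj)
    rw [h1] at h2
    simp [det] at h2
  have hFc : ∀ j ∈ R.J, ∀ n : ℕ, 1 ≤ n → ∀ L ∈ Ls n,
      Continuous (Fr σ σ' κ m s n L (R.v₁ j.1 j.2) (R.v₂ j.1 j.2)) := by
    intro j hj n hn1 L hL
    exact (hHOLr K σ σ' _ _ _ _ (hPB j hj) κ m n L hn1 hL).1 s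
  have hEc : ∀ j ∈ R.J, ∀ (m' : ℤ) (n : ℕ), 1 ≤ n → ∀ L ∈ Ls n,
      Continuous fun τ : ℝ => Em m' s n L (R.z j.1 j.2 τ).re (R.z j.1 j.2 τ).im := by
    intro j hj m' n hn1 L hL
    exact (hHOLr K σ σ' _ _ _ _ (hPB j hj) κ m n L hn1 hL).2.1 m' s
  have hSq : ∀ n ∈ Sq N, 1 ≤ n ∧ Squarefree n := by
    intro n hn'
    unfold Sq at hn'
    rw [Finset.mem_filter, Finset.mem_Icc] at hn'
    exact ⟨hn'.1.1, hn'.2⟩
  have hGc : ∀ j ∈ R.J, ∀ n ∈ Sq N, Continuous (R.G κ m s n j.1 j.2) := by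
    intro j hj n hn'
    unfold DD.G
    refine continuous_finsetSum _ fun L hL => ?_
    exact hFc j hj n (hSq n hn').1 L (Finset.mem_filter.1 hL).1
  have hBc : ∀ j ∈ R.J, ∀ m' : ℤ, Continuous fun τ : ℝ =>
      Bz m' s α N (R.fo j.1 j.2) (R.z j.1 j.2 τ).re (R.z j.1 j.2 τ).im := by
    intro j hj m'
    unfold Bz
    refine continuous_finsetSum _ fun n hn' => ?_
    refine continuous_const.mul ?_
    refine continuous_finsetSum _ fun L hL => ?_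
    exact hEc j hj m' n (hSq n hn').1 L (Finset.mem_filter.1 hL).1
  set G : (Σ _ : ClassGroup (𝓞 K), ℤ × ℤ) → ℝ → ℂ :=
    fun j τ => ∑ n ∈ Sq N, α n * R.G κ m s n j.1 j.2 τ with hG
  have hGcont : ∀ j ∈ R.J, Continuous (G j) := by
    intro j hj
    rw [hG]
    refine continuous_finsetSum _ fun n hn' => ?_
    exact continuous_const.mul (hGc j hj n hn')
  have hbes := hBES (Ideal (𝓞 K) → ℂ) (Σ _ : ClassGroup (𝓞 K), ℤ × ℤ) Ψ R.J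
    (fun ψ j => R.ρ κ (ν ψ) ψ j.1 j.2) ν R.P G hP
    (fun ψ hψ j hj => (hORTr K D f σ σ' hRQ R κ (ν ψ) (ν ψ) ψ ψ (hΨ ψ hψ).1 (hΨ ψ hψ).1).1 j hj)
    (by
      intro j hj
      refine ⟨(hGcont j hj).aestronglyMeasurable, ?_⟩
      obtain ⟨C, hC⟩ := isCompact_Icc.exists_bound_of_continuousOn
        (f := G j) (s := Icc (0 : ℝ) R.P) (hGcont j hj).continuousOn
      exact ⟨C, hC⟩)
    (fun ψ hψ ψ' hψ' hne =>
      (hORTr K D f σ σ' hRQ R κ (ν ψ) (ν ψ') ψ ψ' (hΨ ψ hψ).1 (hΨ ψ' hψ').1).2 hne)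
  -- the left side
  have hfD : (0 : ℝ) < (D : ℝ) * (f : ℝ) ^ 2 := by
    have h1 : (0 : ℝ) < D := by exact_mod_cast hRQ.pos
    have h2 : (0 : ℝ) < f := by exact_mod_cast hf
    positivity
  have hleft : ∀ ψ ∈ Ψ, ‖∑ j ∈ R.J, R.ρ κ (ν ψ) ψ j.1 j.2 * ∫ τ in (0 : ℝ)..R.P, G j τ *
      Complex.exp (-(((ν ψ * τ : ℝ) : ℂ) * Complex.I))‖ ^ 2 =
      ‖∑ n ∈ Sq N, α n * lc ψ n‖ ^ 2 * ‖F ψ s‖ ^ 2 *
        (‖gM m.natAbs s‖ ^ 2 * ‖crr κ m (ν ψ) s‖ ^ 2 * ((D : ℝ) * (f : ℝ) ^ 2) ^ s.re) *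
          (R.n : ℝ) ^ 2 := by
    intro ψ hψ
    obtain ⟨hR, hF⟩ := hΨ ψ hψ
    have e1 : ∀ j ∈ R.J, ∫ τ in (0 : ℝ)..R.P, G j τ *
        Complex.exp (-(((ν ψ * τ : ℝ) : ℂ) * Complex.I)) =
        ∑ n ∈ Sq N, α n * ∫ τ in (0 : ℝ)..R.P, R.G κ m s n j.1 j.2 τ *
          Complex.exp (-(((ν ψ * τ : ℝ) : ℂ) * Complex.I)) := by
      intro j hj
      have e2 : (fun τ : ℝ => G j τ * Complex.exp (-(((ν ψ * τ : ℝ) : ℂ) * Complex.I))) =
          fun τ : ℝ => ∑ n ∈ Sq N, α n * (R.G κ m s n j.1 j.2 τ *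
            Complex.exp (-(((ν ψ * τ : ℝ) : ℂ) * Complex.I))) := by
        funext τ
        rw [hG]
        simp only
        rw [Finset.sum_mul]
        exact Finset.sum_congr rfl fun n _ => by ring
      rw [e2, intervalIntegral.integral_finsetSum]
      · refine Finset.sum_congr rfl fun n _ => ?_
        rw [intervalIntegral.integral_const_mul]
      · intro n hn'
        refine Continuous.intervalIntegrable ?_ _ _
        refine continuous_const.mul ((hGc j hj n hn').mul ?_)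
        fun_prop
    have e3 : ∑ j ∈ R.J, R.ρ κ (ν ψ) ψ j.1 j.2 * ∫ τ in (0 : ℝ)..R.P, G j τ *
        Complex.exp (-(((ν ψ * τ : ℝ) : ℂ) * Complex.I)) =
        (R.n : ℂ) * ∑ n ∈ Sq N, α n * R.E κ m (ν ψ) ψ n s := by
      rw [Finset.mul_sum]
      have e4 : ∀ n ∈ Sq N, (R.n : ℂ) * (α n * R.E κ m (ν ψ) ψ n s) =
          ∑ j ∈ R.J, R.ρ κ (ν ψ) ψ j.1 j.2 * (α n * ∫ τ in (0 : ℝ)..R.P,
            R.G κ m s n j.1 j.2 τ * Complex.exp (-(((ν ψ * τ : ℝ) : ℂ) * Complex.I))) := by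
        intro n _
        unfold DD.E
        have e5 : (R.n : ℂ) * (α n * ((R.n : ℂ)⁻¹ * ∑ j ∈ R.J, R.ρ κ (ν ψ) ψ j.1 j.2 *
            ∫ τ in (0 : ℝ)..R.P, R.G κ m s n j.1 j.2 τ *
              Complex.exp (-(((ν ψ * τ : ℝ) : ℂ) * Complex.I)))) =
            α n * ∑ j ∈ R.J, R.ρ κ (ν ψ) ψ j.1 j.2 *
            ∫ τ in (0 : ℝ)..R.P, R.G κ m s n j.1 j.2 τ *
              Complex.exp (-(((ν ψ * τ : ℝ) : ℂ) * Complex.I)) := by
          rw [mul_left_comm, mul_inv_cancel_left₀ hn]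
        rw [e5, Finset.mul_sum]
        exact Finset.sum_congr rfl fun j _ => by ring
      rw [Finset.sum_congr rfl e4, Finset.sum_comm]
      refine Finset.sum_congr rfl fun j hj => ?_
      rw [e1 j hj, Finset.mul_sum]
    have e6 : ∑ n ∈ Sq N, α n * R.E κ m (ν ψ) ψ n s =
        (∑ n ∈ Sq N, α n * lc ψ n) * (gM m.natAbs s * crr κ m (ν ψ) s *
          ((f : ℂ) ^ 2 * D) ^ (s / 2) * F ψ s) := by
      rw [Finset.sum_mul]
      refine Finset.sum_congr rfl fun n hn' => ?_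
      rw [← hLF2r K D f σ σ' κ (ν ψ) ψ (F ψ) hRQ hR hF R m n (hSq n hn').2 s hs hs1]
      ring
    have e7 : ‖((f : ℂ) ^ 2 * D) ^ (s / 2)‖ ^ 2 = ((D : ℝ) * (f : ℝ) ^ 2) ^ s.re := by
      have e8 : (f : ℂ) ^ 2 * D = (((D : ℝ) * (f : ℝ) ^ 2 : ℝ) : ℂ) := by
        push_cast
        ring
      rw [e8, norm_cpow_half_sq hfD]
    rw [e3, e6]
    simp only [norm_mul, mul_pow, Complex.norm_natCast]
    rw [e7]
    ring
  rw [Finset.sum_congr rfl hleft] at hbes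
  refine le_trans hbes ?_
  refine mul_le_mul_of_nonneg_left ?_ (mul_nonneg (Nat.cast_nonneg _) hP.le)
  refine Finset.sum_le_sum fun j hj => ?_
  have hcR : Continuous fun τ : ℝ =>
      (‖Bz m s α N (R.fo j.1 j.2) (R.z j.1 j.2 τ).re (R.z j.1 j.2 τ).im‖ ^ 2 +
        ‖Bz (-m) s α N (R.fo j.1 j.2) (R.z j.1 j.2 τ).re (R.z j.1 j.2 τ).im‖ ^ 2) / 2 :=
    (((hBc j hj m).norm.pow 2).add ((hBc j hj (-m)).norm.pow 2)).div_const 2
  refine intervalIntegral.integral_mono_on hP.le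
    (((hGcont j hj).norm.pow 2).intervalIntegrable _ _) (hcR.intervalIntegrable _ _) ?_
  intro τ _
  have hw : ‖wp σ σ' τ (R.v₁ j.1 j.2)‖ = 1 := (hPHX K σ σ' τ _ (hv1 j hj)).2.1
  have hGe : G j τ = (wp σ σ' τ (R.v₁ j.1 j.2) ^ m *
        Bz m s α N (R.fo j.1 j.2) (R.z j.1 j.2 τ).re (R.z j.1 j.2 τ).im +
      (-1) ^ κ * wp σ σ' τ (R.v₁ j.1 j.2) ^ (-m) *
        Bz (-m) s α N (R.fo j.1 j.2) (R.z j.1 j.2 τ).re (R.z j.1 j.2 τ).im) / 2 := by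
    rw [hG]
    unfold Bz DD.G
    simp only
    rw [Finset.mul_sum, Finset.mul_sum, ← Finset.sum_add_distrib, Finset.sum_div]
    refine Finset.sum_congr rfl fun n _ => ?_
    rw [Finset.mul_sum, Finset.mul_sum, Finset.mul_sum, Finset.mul_sum, Finset.mul_sum,
      ← Finset.sum_add_distrib, Finset.sum_div]
    refine Finset.sum_congr rfl fun L _ => ?_
    unfold Fr DD.z
    ring
  rw [hGe]
  refine le_trans (sq_half _ _) ?_
  have h1 : ‖wp σ σ' τ (R.v₁ j.1 j.2) ^ m *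
      Bz m s α N (R.fo j.1 j.2) (R.z j.1 j.2 τ).re (R.z j.1 j.2 τ).im‖ =
      ‖Bz m s α N (R.fo j.1 j.2) (R.z j.1 j.2 τ).re (R.z j.1 j.2 τ).im‖ := by
    rw [norm_mul, norm_zpow, hw, one_zpow, one_mul]
  have h2 : ‖(-1) ^ κ * wp σ σ' τ (R.v₁ j.1 j.2) ^ (-m) *
      Bz (-m) s α N (R.fo j.1 j.2) (R.z j.1 j.2 τ).re (R.z j.1 j.2 τ).im‖ =
      ‖Bz (-m) s α N (R.fo j.1 j.2) (R.z j.1 j.2 τ).re (R.z j.1 j.2 τ).im‖ := by
    rw [norm_mul, norm_mul, norm_zpow, hw, one_zpow, norm_pow, norm_neg, norm_one, one_pow,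
      one_mul, one_mul]
  rw [h1, h2]

end Pool.Agent.H95.DF
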