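import Pool.Agent.H95.DR.Targets

/-!
# (SML) the sum of the negative powers of the values over a window converges
-/

set_option autoImplicit false

open MeasureTheory Set Filter NumberField
open scoped Real nonZeroDivisors Matrix MatrixGroups

namespace Pool.Agent.H95.DF

open Pool.Agent.H31.CN Pool.Agent.H89.FM Pool.Agent.H61.FM Pool.Agent.H89.FC Pool.Agent.H95.FC
open Pool.Agent.H89.DF Pool.Agent.H95.DR

theorem nm_one_le {K : Type} [Field K] [NumberField K] (J : (Ideal (𝓞 K))⁰) : 1 ≤ nm J :=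
  Ideal.absNorm_pos_of_nonZeroDivisors J

theorem ideals_summable (hNID : T_NID) (K : Type) [Field K] [NumberField K]
    (hrk : Module.finrank ℚ K = 2) (a : ℝ) (ha : 1 < a) :
    Summable fun J : (Ideal (𝓞 K))⁰ => (nm J : ℝ) ^ (-a) := by
  classical
  obtain ⟨ε, hε⟩ : ∃ ε : ℝ, ε = (a - 1) / 2 := ⟨_, rfl⟩
  have hε0 : 0 < ε := by rw [hε]; linarith
  obtain ⟨C, hC, h⟩ := hNID ε hε0
  have hs : Summable fun n : ℕ => C * (n : ℝ) ^ (ε - a) := by
    refine Summable.mul_left _ ?_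
    exact Real.summable_nat_rpow.2 (by linarith)
  refine summable_of_sum_le (c := ∑' n : ℕ, C * (n : ℝ) ^ (ε - a)) (fun J => by positivity)
    fun S => ?_
  have h1 : ∑ J ∈ S, (nm J : ℝ) ^ (-a) = ∑ n ∈ S.image nm,
      ∑ J ∈ S.filter (fun J => nm J = n), (nm J : ℝ) ^ (-a) :=
    (Finset.sum_fiberwise_of_maps_to (fun J hJ => Finset.mem_image_of_mem _ hJ) _).symm
  rw [h1]
  refine le_trans (Finset.sum_le_sum fun n hn => ?_)
    (hs.sum_le_tsum (S.image nm) fun n _ => by positivity)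
  obtain ⟨J0, hJ0, hJn⟩ := Finset.mem_image.1 hn
  have hn1 : 1 ≤ n := by
    rw [← hJn]
    exact nm_one_le J0
  have hn0 : (0 : ℝ) < n := by exact_mod_cast hn1
  have h2 : ∑ J ∈ S.filter (fun J => nm J = n), (nm J : ℝ) ^ (-a) =
      ((S.filter (fun J => nm J = n)).card : ℝ) * (n : ℝ) ^ (-a) := by
    rw [Finset.sum_congr rfl (fun J hJ => by rw [(Finset.mem_filter.1 hJ).2]),
      Finset.sum_const, nsmul_eq_mul]
  have h3 : (S.filter (fun J => nm J = n)).card ≤ (Nn K n).card :=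
    Finset.card_le_card fun J hJ => mem_Nn.2 (Finset.mem_filter.1 hJ).2
  rw [h2]
  calc ((S.filter (fun J => nm J = n)).card : ℝ) * (n : ℝ) ^ (-a)
      ≤ (C * (n : ℝ) ^ ε) * (n : ℝ) ^ (-a) := by
        refine mul_le_mul_of_nonneg_right ?_ (by positivity)
        exact le_trans (by exact_mod_cast h3) (h K hrk n hn1)
    _ = C * (n : ℝ) ^ (ε - a) := by
        rw [mul_assoc, ← Real.rpow_add hn0]
        rfl

theorem pf_SML (hNID : T_NID) (hWND : T_WND) : T_SML := by
  classical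
  intro K _ _ D f σ σ' hR
  refine ⟨fun a ha => ideals_summable hNID K hR.rk a ha, ?_⟩
  intro I α β Q b η hob hVB hη a x ha
  have hs := ideals_summable hNID K hR.rk a ha
  refine summable_of_sum_le (c := (nq σ σ' η : ℝ) * ∑' J : (Ideal (𝓞 K))⁰, (nm J : ℝ) ^ (-a))
    (fun v => by positivity) fun S => ?_
  have hval : ∀ v : {v : ℤ × ℤ // Wd σ σ' α β η x v},
      |(val Q v : ℝ)| ^ (-a) = (nm (b v) : ℝ) ^ (-a) := by
    intro v
    have h1 := hVB.nrm v v.2.1
    have h2 : ((nm (b v) : ℤ) : ℝ) = ((|val Q v| : ℤ) : ℝ) := by rw [h1]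
    rw [Int.cast_abs] at h2
    rw [← h2]
    norm_cast
  rw [Finset.sum_congr rfl fun v _ => hval v]
  obtain ⟨g, hg⟩ : ∃ g : {v : ℤ × ℤ // Wd σ σ' α β η x v} → (Ideal (𝓞 K))⁰,
      g = fun v => b v.1 := ⟨_, rfl⟩
  have h1 : ∑ v ∈ S, (nm (b v.1) : ℝ) ^ (-a) = ∑ J ∈ S.image g,
      ∑ v ∈ S.filter (fun v => g v = J), (nm (b v.1) : ℝ) ^ (-a) :=
    (Finset.sum_fiberwise_of_maps_to (fun v hv => Finset.mem_image_of_mem g hv) _).symm
  rw [h1]
  refine le_trans (Finset.sum_le_sum (g := fun J : (Ideal (𝓞 K))⁰ =>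
    (nq σ σ' η : ℝ) * (nm J : ℝ) ^ (-a)) fun J hJ => ?_) ?_
  · obtain ⟨v0, hv0, hJ0⟩ := Finset.mem_image.1 hJ
    obtain ⟨hfin, hcard⟩ := hWND K D f σ σ' hR η hη I α β Q b hob hVB v0.1 x v0.2.1
    have hgv : ∀ v, v ∈ S.filter (fun v => g v = J) → b v.1 = J := by
      intro v hv
      rw [← (Finset.mem_filter.1 hv).2, hg]
    have h2 : ∑ v ∈ S.filter (fun v => g v = J), (nm (b v.1) : ℝ) ^ (-a) =
        ((S.filter (fun v => g v = J)).card : ℝ) * (nm J : ℝ) ^ (-a) := by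
      rw [Finset.sum_congr rfl (fun v hv => by rw [hgv v hv]),
        Finset.sum_const, nsmul_eq_mul]
    rw [h2]
    refine mul_le_mul_of_nonneg_right ?_ (by positivity)
    have hJ0' : b v0.1 = J := by
      rw [← hJ0, hg]
    have h3 : ((S.filter (fun v => g v = J)).map (Function.Embedding.subtype _)).card =
        (S.filter (fun v => g v = J)).card := Finset.card_map _
    have h4 : (((S.filter (fun v => g v = J)).map (Function.Embedding.subtype _) :
        Finset (ℤ × ℤ)) : Set (ℤ × ℤ)) ⊆ {v' : ℤ × ℤ | Wd σ σ' α β η x v' ∧ b v' = b v0} := by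
      intro w hw
      obtain ⟨v, hv, hvw⟩ := Finset.mem_map.1 (Finset.mem_coe.1 hw)
      rw [← hvw]
      refine ⟨v.2, ?_⟩
      rw [hJ0']
      exact hgv v hv
    have h5 := Set.ncard_le_ncard h4 hfin
    rw [Set.ncard_coe_finset, h3, hcard] at h5
    exact_mod_cast h5
  · rw [← Finset.mul_sum]
    refine mul_le_mul_of_nonneg_left ?_ (by positivity)
    exact hs.sum_le_tsum _ fun J _ => by positivity

end Pool.Agent.H95.DF
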