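import Pool.Agent.H95.DR.Targets2
import Pool.Agent.H50.CN.ACT

/-!
# Row ATG of `dfx_modules`: the twisted second moment for the non-exceptional discriminants
-/

set_option autoImplicit false

open MeasureTheory Set Filter NumberField
open scoped Real nonZeroDivisors Matrix MatrixGroups
open Pool.Agent.H31.CN Pool.Agent.H89.FM Pool.Agent.H61.FM Pool.Agent.H89.FC Pool.Agent.H95.FC
open Pool.Agent.H89.DF Pool.Agent.H95.DR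

namespace Pool.Agent.H95.DF

/-- the Riemann sum for the line `j` -/
noncomputable def Tj {K : Type} [Field K] [NumberField K] {D f : ℕ} {σ σ' : K →+* ℝ}
    (R : DD K D f σ σ') (m : ℤ) (s : ℂ) (α : ℕ → ℂ) (N : ℕ)
    (n : (Σ _ : ClassGroup (𝓞 K), ℤ × ℤ) → ℕ) (t : (Σ _ : ClassGroup (𝓞 K), ℤ × ℤ) → ℕ → ℝ)
    (j : Σ _ : ClassGroup (𝓞 K), ℤ × ℤ) : ℝ :=
  ∑ i ∈ Finset.range (n j), R.P / n j / R.n *
    ‖Bz m s α N (R.fo j.1 j.2) (R.z j.1 j.2 (t j i)).re (R.z j.1 j.2 (t j i)).im‖ ^ 2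

/-- the conditions on the grid -/
def Grd {K : Type} [Field K] [NumberField K] {D f : ℕ} {σ σ' : K →+* ℝ}
    (R : DD K D f σ σ') (n : (Σ _ : ClassGroup (𝓞 K), ℤ × ℤ) → ℕ)
    (t : (Σ _ : ClassGroup (𝓞 K), ℤ × ℤ) → ℕ → ℝ) : Prop :=
  ∀ j ∈ R.J, 1 ≤ n j ∧ R.P / n j ≤ 1 ∧
        ∀ i < n j, i * (R.P / n j) ≤ t j i ∧ t j i ≤ (i + 1) * (R.P / n j)

theorem pb_fo (hPBT : T_PBT) {K : Type} [Field K] [NumberField K] {D f : ℕ} {σ σ' : K →+* ℝ}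
    (hf : 1 ≤ f) (R : DD K D f σ σ') {j : Σ _ : ClassGroup (𝓞 K), ℤ × ℤ} (hj : j ∈ R.J) :
    PB σ σ' (Ideal.absNorm (R.I j.1 : Ideal (𝓞 K))) (R.v₁ j.1 j.2)
      (R.v₂ j.1 j.2) (R.fo j.1 j.2) := by
  obtain ⟨hB1, hB2, -, -⟩ := hPBT K σ σ'
  have h0 : j.2 ∈ R.T j.1 := by
    unfold DD.J at hj
    exact (Finset.mem_sigma.1 hj).2
  have h1 := hB1 (R.I j.1 : Ideal (𝓞 K)) (R.α j.1) (R.β j.1) (R.Q j.1)
    (nonZeroDivisors.coe_ne_zero _) (R.ob j.1)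
  exact (hB2 _ (R.α j.1) (R.β j.1) (R.Q j.1) f j.2 (R.W j.1 j.2) h1 hf
    ((R.lt j.1).one j.2 h0)).1

theorem cont_Bz (hHOL : T_HOLr) (hPBT : T_PBT) {K : Type} [Field K] [NumberField K] {D f : ℕ}
    {σ σ' : K →+* ℝ} (hf : 1 ≤ f) (R : DD K D f σ σ')
    {j : Σ _ : ClassGroup (𝓞 K), ℤ × ℤ} (hj : j ∈ R.J) (m : ℤ) (s : ℂ) (α : ℕ → ℂ) (N : ℕ) :
    Continuous fun τ : ℝ =>
      Bz m s α N (R.fo j.1 j.2) (R.z j.1 j.2 τ).re (R.z j.1 j.2 τ).im := by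
  classical
  unfold Bz
  refine continuous_finsetSum _ fun n hn' => ?_
  refine continuous_const.mul ?_
  refine continuous_finsetSum _ fun L hL => ?_
  have hn1 : 1 ≤ n := by
    unfold Sq at hn'
    rw [Finset.mem_filter, Finset.mem_Icc] at hn'
    exact hn'.1.1
  exact (hHOL K σ σ' _ _ _ _ (pb_fo hPBT hf R hj) 0 m n L hn1 (Finset.mem_filter.1 hL).1).2.1 m s

/-- one pair of a discriminant and a conductor -/
theorem one_pair (hPVF : T_PVFr) (hGRD : T_GRD) (hHOL : T_HOLr) (hPBT : T_PBT) (hUWN : T_UWN)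
    (K : Type) [Field K] [NumberField K] (D f : ℕ) (σ σ' : K →+* ℝ) (hRQ : RQ K D σ σ')
    (hf : 1 ≤ f) (R : DD K D f σ σ') (q : ℕ) (Ψ : Finset (Ideal (𝓞 K) → ℂ))
    (ν : (Ideal (𝓞 K) → ℂ) → ℝ) (F : (Ideal (𝓞 K) → ℂ) → ℂ → ℂ)
    (hF : ∀ ψ ∈ Ψ, RCr K σ σ' f q (ν ψ) ψ ∧ IsL ψ (F ψ)) (m : ℤ) (s : ℂ) (N : ℕ) (α : ℕ → ℂ)
    (hs : 0 < s.re) (hs1 : s ≠ 1) (U : ℝ) (hU : (R.J.card : ℝ) * R.P ≤ U * R.n) :
    ∃ (n₁ n₂ : (Σ _ : ClassGroup (𝓞 K), ℤ × ℤ) → ℕ)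
      (t₁ t₂ : (Σ _ : ClassGroup (𝓞 K), ℤ × ℤ) → ℕ → ℝ), Grd R n₁ t₁ ∧ Grd R n₂ t₂ ∧
      (∑ ψ ∈ Ψ, ‖∑ n ∈ Sq N, α n * lc ψ n‖ ^ 2 * ‖F ψ s‖ ^ 2 * ‖crr q m (ν ψ) s‖ ^ 2) *
        (‖gM m.natAbs s‖ ^ 2 * ((D : ℝ) * (f : ℝ) ^ 2) ^ s.re) ≤
        U * ((∑ j ∈ R.J, Tj R m s α N n₁ t₁ j + ∑ j ∈ R.J, Tj R (-m) s α N n₂ t₂ j) / 2) := by
  obtain ⟨hP0, hn0, -⟩ := hUWN K D f σ σ' hRQ R.η R.un
  have hP : 0 < R.P := hP0
  have hn : (0 : ℝ) < R.n := by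
    have h1 : 0 < R.n := hn0
    exact_mod_cast h1
  have hg : ∀ m' : ℤ, ∃ (n : (Σ _ : ClassGroup (𝓞 K), ℤ × ℤ) → ℕ)
      (t : (Σ _ : ClassGroup (𝓞 K), ℤ × ℤ) → ℕ → ℝ), Grd R n t ∧
      ∀ j ∈ R.J, ∫ τ in (0 : ℝ)..R.P,
        ‖Bz m' s α N (R.fo j.1 j.2) (R.z j.1 j.2 τ).re (R.z j.1 j.2 τ).im‖ ^ 2 ≤
        R.n * Tj R m' s α N n t j := by
    intro m'
    have h1 : ∀ j : Σ _ : ClassGroup (𝓞 K), ℤ × ℤ, ∃ (n : ℕ) (t : ℕ → ℝ), j ∈ R.J →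
        (1 ≤ n ∧ R.P / n ≤ 1 ∧
        (∀ i < n, i * (R.P / n) ≤ t i ∧ t i ≤ (i + 1) * (R.P / n)) ∧
        ∫ τ in (0 : ℝ)..R.P,
          ‖Bz m' s α N (R.fo j.1 j.2) (R.z j.1 j.2 τ).re (R.z j.1 j.2 τ).im‖ ^ 2 ≤
          ∑ i ∈ Finset.range n, R.P / n *
            ‖Bz m' s α N (R.fo j.1 j.2) (R.z j.1 j.2 (t i)).re (R.z j.1 j.2 (t i)).im‖ ^ 2) := by
      intro j
      by_cases hj : j ∈ R.J
      · obtain ⟨n, t, h2, h3, h4, h5⟩ := hGRD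
          (fun τ => ‖Bz m' s α N (R.fo j.1 j.2) (R.z j.1 j.2 τ).re (R.z j.1 j.2 τ).im‖ ^ 2)
          R.P hP (((cont_Bz hHOL hPBT hf R hj m' s α N).norm.pow 2).continuousOn)
        exact ⟨n, t, fun _ => ⟨h2, h3, h4, h5⟩⟩
      · exact ⟨0, 0, fun h => absurd h hj⟩
    choose n t h using h1
    refine ⟨n, t, fun j hj => ⟨(h j hj).1, (h j hj).2.1, (h j hj).2.2.1⟩, fun j hj => ?_⟩
    refine le_trans (h j hj).2.2.2 (le_of_eq ?_)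
    unfold Tj
    rw [Finset.mul_sum]
    refine Finset.sum_congr rfl fun i _ => ?_
    field_simp
  obtain ⟨n₁, t₁, hg1, hi1⟩ := hg m
  obtain ⟨n₂, t₂, hg2, hi2⟩ := hg (-m)
  refine ⟨n₁, n₂, t₁, t₂, hg1, hg2, ?_⟩
  have h := hPVF K D f σ σ' hRQ hf R q Ψ ν F hF m s N α hs hs1
  set A : ℝ := ∑ ψ ∈ Ψ, ‖∑ n ∈ Sq N, α n * lc ψ n‖ ^ 2 * ‖F ψ s‖ ^ 2 *
    ‖crr q m (ν ψ) s‖ ^ 2 with hA
  have e1 : ∑ ψ ∈ Ψ, ‖∑ n ∈ Sq N, α n * lc ψ n‖ ^ 2 * ‖F ψ s‖ ^ 2 *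
        (‖gM m.natAbs s‖ ^ 2 * ‖crr q m (ν ψ) s‖ ^ 2 * ((D : ℝ) * (f : ℝ) ^ 2) ^ s.re) *
          (R.n : ℝ) ^ 2 =
      A * (‖gM m.natAbs s‖ ^ 2 * ((D : ℝ) * (f : ℝ) ^ 2) ^ s.re) * (R.n : ℝ) ^ 2 := by
    rw [hA, Finset.sum_mul, Finset.sum_mul]
    exact Finset.sum_congr rfl fun ψ _ => by ring
  rw [e1] at h
  have e2 : ∀ j ∈ R.J, ∫ τ in (0 : ℝ)..R.P,
      (‖Bz m s α N (R.fo j.1 j.2) (R.z j.1 j.2 τ).re (R.z j.1 j.2 τ).im‖ ^ 2 +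
        ‖Bz (-m) s α N (R.fo j.1 j.2) (R.z j.1 j.2 τ).re (R.z j.1 j.2 τ).im‖ ^ 2) / 2 ≤
      R.n * ((Tj R m s α N n₁ t₁ j + Tj R (-m) s α N n₂ t₂ j) / 2) := by
    intro j hj
    have hc1 : Continuous fun τ : ℝ =>
      ‖Bz m s α N (R.fo j.1 j.2) (R.z j.1 j.2 τ).re (R.z j.1 j.2 τ).im‖ ^ 2 :=
      (cont_Bz hHOL hPBT hf R hj m s α N).norm.pow 2
    have hc2 : Continuous fun τ : ℝ =>
      ‖Bz (-m) s α N (R.fo j.1 j.2) (R.z j.1 j.2 τ).re (R.z j.1 j.2 τ).im‖ ^ 2 :=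
      (cont_Bz hHOL hPBT hf R hj (-m) s α N).norm.pow 2
    rw [intervalIntegral.integral_div,
      intervalIntegral.integral_add (hc1.intervalIntegrable _ _) (hc2.intervalIntegrable _ _)]
    have h1 := hi1 j hj
    have h2 := hi2 j hj
    linarith
  have e3 := Finset.sum_le_sum e2
  rw [← Finset.mul_sum] at e3
  have e4 : ∑ j ∈ R.J, (Tj R m s α N n₁ t₁ j + Tj R (-m) s α N n₂ t₂ j) / 2 =
      (∑ j ∈ R.J, Tj R m s α N n₁ t₁ j + ∑ j ∈ R.J, Tj R (-m) s α N n₂ t₂ j) / 2 := by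
    rw [← Finset.sum_div, Finset.sum_add_distrib]
  rw [e4] at e3
  set B : ℝ := (∑ j ∈ R.J, Tj R m s α N n₁ t₁ j + ∑ j ∈ R.J, Tj R (-m) s α N n₂ t₂ j) / 2
    with hB
  have hB0 : 0 ≤ B := by
    have hT0 : ∀ (m' : ℤ) (n : (Σ _ : ClassGroup (𝓞 K), ℤ × ℤ) → ℕ)
        (t : (Σ _ : ClassGroup (𝓞 K), ℤ × ℤ) → ℕ → ℝ) (j : Σ _ : ClassGroup (𝓞 K), ℤ × ℤ),
        0 ≤ Tj R m' s α N n t j := by
      intro m' n t j
      unfold Tj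
      exact Finset.sum_nonneg fun i _ => mul_nonneg (div_nonneg (div_nonneg hP.le
        (Nat.cast_nonneg _)) hn.le) (by positivity)
    have h1 : 0 ≤ ∑ j ∈ R.J, Tj R m s α N n₁ t₁ j := Finset.sum_nonneg fun j _ => hT0 _ _ _ _
    have h2 : 0 ≤ ∑ j ∈ R.J, Tj R (-m) s α N n₂ t₂ j := Finset.sum_nonneg fun j _ => hT0 _ _ _ _
    rw [hB]
    linarith
  have h5 : A * (‖gM m.natAbs s‖ ^ 2 * ((D : ℝ) * (f : ℝ) ^ 2) ^ s.re) * (R.n : ℝ) ^ 2 ≤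
      U * B * (R.n : ℝ) ^ 2 := by
    calc _ ≤ _ := h
      _ ≤ (R.J.card : ℝ) * R.P * (R.n * B) :=
          mul_le_mul_of_nonneg_left e3 (mul_nonneg (Nat.cast_nonneg _) hP.le)
      _ ≤ U * R.n * (R.n * B) := mul_le_mul_of_nonneg_right hU (mul_nonneg hn.le hB0)
      _ = _ := by ring
  exact le_of_mul_le_mul_right h5 (by positivity)

/-- regrouping the sum over the family -/
theorem regroup {K : ℕ → Type} [∀ D, Field (K D)] [∀ D, NumberField (K D)]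
    [DecidableEq (IXr K)] (S : Finset (IXr K)) (f : IXr K → ℕ) (g : IXr K → ℝ) :
    ∑ x ∈ S, g x = ∑ pr ∈ S.image (fun x => (x.1, f x)),
      ∑ ψ ∈ (S.preimage (Sigma.mk pr.1) sigma_mk_injective.injOn).filter
        (fun ψ => f ⟨pr.1, ψ⟩ = pr.2), g ⟨pr.1, ψ⟩ := by
  classical
  rw [← Finset.sum_fiberwise_of_maps_to (t := S.image (fun x => (x.1, f x)))
    (g := fun x => (x.1, f x)) (fun x hx => Finset.mem_image_of_mem _ hx)]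
  refine Finset.sum_congr rfl fun pr _ => ?_
  have h : S.filter (fun x => (x.1, f x) = pr) =
      ((S.preimage (Sigma.mk pr.1) sigma_mk_injective.injOn).filter
        (fun ψ => f ⟨pr.1, ψ⟩ = pr.2)).map ⟨Sigma.mk pr.1, sigma_mk_injective⟩ := by
    ext x
    obtain ⟨D, ψ⟩ := x
    simp only [Finset.mem_filter, Finset.mem_map, Finset.mem_preimage,
      Function.Embedding.coeFn_mk]
    constructor
    · rintro ⟨h1, h2⟩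
      have h3 : D = pr.1 := congrArg Prod.fst h2
      subst h3
      exact ⟨ψ, ⟨h1, congrArg Prod.snd h2⟩, rfl⟩
    · rintro ⟨ψ', ⟨h1, h2⟩, h3⟩
      have h4 : D = pr.1 := (congrArg Sigma.fst h3).symm
      subst h4
      have h5 : ψ' = ψ := sigma_mk_injective h3
      subst h5
      exact ⟨h1, Prod.ext rfl h2⟩
  rw [h, Finset.sum_map]
  rfl

theorem log_bd {e L X : ℝ} (he : 0 < e) (hL : 1 ≤ L) (hX : L ≤ X) :
    1 + Real.log L ≤ (1 + 1 / e) * X ^ e := by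
  have hX1 : 1 ≤ X := hL.trans hX
  have h1 : Real.log L ≤ Real.log X := Real.log_le_log (by linarith) hX
  have h2 : Real.log X ≤ X ^ e / e := Real.log_le_rpow_div (by linarith) he
  have h3 : (1 : ℝ) ≤ X ^ e := Real.one_le_rpow hX1 he.le
  have h4 : (1 + 1 / e) * X ^ e = X ^ e + X ^ e / e := by ring
  rw [h4]
  linarith

open Classical in
/-- the sums over the points of all pairs -/
theorem all_pairs (hWGT : T_WGTr) (hFDU : T_FDUr) (hPBT : T_PBT) (hPBG : T_PBG)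
    (hUWN : T_UWN) (hFLF : Pool.Agent.H95.FC.T_FLF) :
    ∃ C : ℝ, 0 < C ∧ ∀ (e κ₁ δ C₁ : ℝ) (k₁ : ℕ), 0 < e → 0 ≤ C₁ →
    (∀ (Ω : Type) (S : Finset Ω) (Q : Ω → QF) (x y w : Ω → ℝ) (m : ℤ) (s : ℂ) (Y B : ℝ)
      (p N : ℕ) (α : ℕ → ℂ), |s.re - 1 / 2| ≤ κ₁ → 1 ≤ Y → 1 ≤ N → (N : ℝ) ≤ Y ^ (1 + δ) →
      (∀ n, ‖α n‖ ≤ 1) → p.Prime → 0 ≤ B →
      (∀ i ∈ S, Anis p (Q i) ∧ -(dsc (Q i) : ℝ) ≤ Y ^ 2 ∧ 0 < y i ∧ Geo (Q i) (x i) (y i) ∧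
        0 ≤ w i) →
      (∀ R : QF, ∑ i ∈ S.filter (fun i => ∃ g : SL(2, ℤ), act (Q i) g = R ∧
        1 / 2 ≤ gy g (x i) (y i)), w i ≤ B) →
      ∑ i ∈ S, w i * ‖Bz m s α N (Q i) (x i) (y i)‖ ^ 2 ≤
        B * C₁ * (p : ℝ) ^ 3 * (1 + |s.im| + |(m : ℝ)|) ^ k₁ * cG m.natAbs s.im ^ 2 *
          Y ^ (3 + e) * N) →
    ∀ (m : ℤ) (s : ℂ) (X : ℝ) (p N : ℕ) (α : ℕ → ℂ) (K : ℕ → Type) [∀ D, Field (K D)]
      [∀ D, NumberField (K D)] (σ σ' : ∀ D, K D →+* ℝ) (I : Finset (ℕ × ℕ))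
      (R : ∀ pr : {pr // pr ∈ I}, DD (K pr.1.1) pr.1.1 pr.1.2 (σ pr.1.1) (σ' pr.1.1))
      (n : ∀ pr : {pr // pr ∈ I}, (Σ _ : ClassGroup (𝓞 (K pr.1.1)), ℤ × ℤ) → ℕ)
      (t : ∀ pr : {pr // pr ∈ I}, (Σ _ : ClassGroup (𝓞 (K pr.1.1)), ℤ × ℤ) → ℕ → ℝ),
      |s.re - 1 / 2| ≤ κ₁ → 1 ≤ X → 1 ≤ N → (N : ℝ) ≤ X ^ ((1 + δ) / 2) →
      (∀ n, ‖α n‖ ≤ 1) → p.Prime →
      (∀ pr : {pr // pr ∈ I}, RQ (K pr.1.1) pr.1.1 (σ pr.1.1) (σ' pr.1.1) ∧ 1 ≤ pr.1.2 ∧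
        (pr.1.1 : ℝ) * (pr.1.2 : ℝ) ^ 2 ≤ X ∧
        ∀ Q : QF, -(dsc Q) = (pr.1.1 : ℤ) * (pr.1.2 : ℤ) ^ 2 → Anis p Q) →
      (∀ pr : {pr // pr ∈ I}, Grd (R pr) (n pr) (t pr)) →
      ∑ pr ∈ I.attach, ∑ j ∈ (R pr).J, Tj (R pr) m s α N (n pr) (t pr) j ≤
        (C * (1 + 1 / e) * X ^ e) * C₁ * (p : ℝ) ^ 3 * (1 + |s.im| + |(m : ℝ)|) ^ k₁ *
          cG m.natAbs s.im ^ 2 * X ^ (3 / 2 + e / 2) * N := by
  obtain ⟨C₃, hC₃, hW⟩ := hWGT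
  refine ⟨C₃, hC₃, ?_⟩
  intro e κ₁ δ C₁ k₁ he hC₁ hTM m s X p N α K _ _ σ σ' I R n t hs hX hN hNX hα hp hI hG
  have hX0 : 0 < X := by linarith
  set Y : ℝ := Real.sqrt X with hY
  have hY1 : 1 ≤ Y := Real.one_le_sqrt.2 hX
  have hYe : ∀ a : ℝ, Y ^ a = X ^ (a / 2) := by
    intro a
    rw [hY, Real.sqrt_eq_rpow, ← Real.rpow_mul hX0.le]
    congr 1
    ring
  have hL1 : ∀ pr : {pr // pr ∈ I}, (1 : ℝ) ≤ (pr.1.1 : ℝ) * (pr.1.2 : ℝ) ^ 2 := by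
    intro pr
    have h3 : (1 : ℝ) ≤ pr.1.1 := by exact_mod_cast (hI pr).1.pos
    have h4 : (1 : ℝ) ≤ pr.1.2 := by exact_mod_cast (hI pr).2.1
    nlinarith [mul_le_mul h4 h4 zero_le_one (by positivity)]
  have hdsc : ∀ (pr : {pr // pr ∈ I}), ∀ j ∈ (R pr).J,
      dsc ((R pr).fo j.1 j.2) = -((pr.1.1 : ℤ) * (pr.1.2 : ℤ) ^ 2) := by
    intro pr j hj
    have h0 : j.2 ∈ (R pr).T j.1 := by
      unfold DD.J at hj
      exact (Finset.mem_sigma.1 hj).2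
    have h1 := (hFLF pr.1.2 ((R pr).Q j.1) j.2 ((R pr).W j.1 j.2) (hI pr).2.1
      (((R pr).lt j.1).one j.2 h0)).2.1
    unfold DD.fo
    rw [h1, (R pr).ds j.1]
    ring
  have hPpos : ∀ pr : {pr // pr ∈ I}, 0 < (R pr).P :=
    fun pr => (hUWN _ _ _ _ _ (hI pr).1 (R pr).η (R pr).un).1
  set B : ℝ := C₃ * ((1 + 1 / e) * X ^ e) with hB
  have hB0 : 0 ≤ B := by positivity
  -- the index set
  have key := hTM (Σ pr : {pr // pr ∈ I}, Σ _ : (Σ _ : ClassGroup (𝓞 (K pr.1.1)), ℤ × ℤ), ℕ)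
    (I.attach.sigma fun pr => (R pr).J.sigma fun j => Finset.range (n pr j))
    (fun i => (R i.1).fo i.2.1.1 i.2.1.2)
    (fun i => ((R i.1).z i.2.1.1 i.2.1.2 (t i.1 i.2.1 i.2.2)).re)
    (fun i => ((R i.1).z i.2.1.1 i.2.1.2 (t i.1 i.2.1 i.2.2)).im)
    (fun i => (R i.1).P / n i.1 i.2.1 / (R i.1).n) m s Y B p N α hs hY1 hN
    (by rw [hYe]; exact hNX) hα hp hB0
    (by
      rintro ⟨pr, j, i⟩ hi
      simp only [Finset.mem_sigma, Finset.mem_attach, true_and] at hi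
      obtain ⟨hj, -⟩ := hi
      have hd := hdsc pr j hj
      have hpb := hPBG _ _ _ _ _ _ _ (pb_fo hPBT (hI pr).2.1 (R pr) hj)
      refine ⟨(hI pr).2.2.2 _ (by rw [hd]; ring), ?_, (hpb.2.2 _).1, (hpb.2.2 _).2.1, ?_⟩
      · simp only
        rw [hd, hY, Real.sq_sqrt hX0.le]
        push_cast
        have := (hI pr).2.2.1
        linarith
      · exact div_nonneg (div_nonneg (hPpos pr).le (Nat.cast_nonneg _)) (Nat.cast_nonneg _))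
    (by
      intro Rf
      rw [Finset.sum_filter, Finset.sum_sigma]
      simp only [Finset.sum_sigma]
      have hin : ∀ pr : {pr // pr ∈ I},
          ∑ j ∈ (R pr).J, ∑ i ∈ Finset.range (n pr j),
            (if ∃ g : SL(2, ℤ), act ((R pr).fo j.1 j.2) g = Rf ∧
              1 / 2 ≤ gy g ((R pr).z j.1 j.2 (t pr j i)).re ((R pr).z j.1 j.2 (t pr j i)).im then
              (R pr).P / n pr j / (R pr).n else 0) ≤ B := by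
        intro pr
        have h1 := hW _ _ _ _ _ (hI pr).1 (hI pr).2.1 (R pr) (n pr) (t pr) Rf (hG pr)
        have h2 := log_bd he (hL1 pr) (hI pr).2.2.1
        simp only [Finset.sum_filter] at h1
        refine le_trans ?_ (le_trans h1 (mul_le_mul_of_nonneg_left h2 hC₃.le))
        refine le_of_eq (Finset.sum_congr rfl fun j _ => Finset.sum_congr rfl fun i _ => ?_)
        congr
      have hze : ∀ pr : {pr // pr ∈ I},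
          (pr.1.1 : ℤ) * (pr.1.2 : ℤ) ^ 2 ≠ -(dsc Rf) →
          ∑ j ∈ (R pr).J, ∑ i ∈ Finset.range (n pr j),
            (if ∃ g : SL(2, ℤ), act ((R pr).fo j.1 j.2) g = Rf ∧
              1 / 2 ≤ gy g ((R pr).z j.1 j.2 (t pr j i)).re ((R pr).z j.1 j.2 (t pr j i)).im then
              (R pr).P / n pr j / (R pr).n else 0) = 0 := by
        intro pr hne
        refine Finset.sum_eq_zero fun j hj => Finset.sum_eq_zero fun i _ => ?_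
        rw [if_neg]
        rintro ⟨g, hg, -⟩
        apply hne
        rw [← hg, Pool.Agent.H50.CN.dsc_act, hdsc pr j hj]
        ring
      by_cases hex : ∃ pr : {pr // pr ∈ I}, (pr.1.1 : ℤ) * (pr.1.2 : ℤ) ^ 2 = -(dsc Rf)
      · obtain ⟨pr0, hpr0⟩ := hex
        rw [Finset.sum_eq_single pr0]
        · exact hin pr0
        · intro pr _ hne
          apply hze
          intro h
          apply hne
          have h1 : (pr.1.1 : ℤ) * (pr.1.2 : ℤ) ^ 2 = (pr0.1.1 : ℤ) * (pr0.1.2 : ℤ) ^ 2 := by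
            rw [h, hpr0]
          have h2 : pr.1.1 * pr.1.2 ^ 2 = pr0.1.1 * pr0.1.2 ^ 2 := by exact_mod_cast h1
          obtain ⟨h3, h4⟩ := hFDU _ _ _ _ _ _ _ _ _ _ (hI pr).1 (hI pr0).1 (hI pr).2.1
            (hI pr0).2.1 h2
          exact Subtype.ext (Prod.ext h3 h4)
        · intro h
          exact absurd (Finset.mem_attach _ _) h
      · rw [Finset.sum_eq_zero]
        · exact hB0
        · intro pr _
          exact hze pr fun h => hex ⟨pr, h⟩)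
  rw [Finset.sum_sigma] at key
  simp only [Finset.sum_sigma] at key
  have e1 : (3 + e) / 2 = 3 / 2 + e / 2 := by ring
  rw [hYe, e1] at key
  calc ∑ pr ∈ I.attach, ∑ j ∈ (R pr).J, Tj (R pr) m s α N (n pr) (t pr) j ≤
      B * C₁ * (p : ℝ) ^ 3 * (1 + |s.im| + |(m : ℝ)|) ^ k₁ * cG m.natAbs s.im ^ 2 *
          X ^ (3 / 2 + e / 2) * N := key
    _ = _ := by
        rw [hB]
        ring

theorem cG_nonneg (m : ℕ) (t : ℝ) : 0 < cG m t := by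
  unfold cG
  have h1 : (0 : ℝ) < (m : ℝ) + 1 := by positivity
  have h2 : 0 < Real.sqrt (((m : ℝ) + 1) ^ 2 + t ^ 2) := Real.sqrt_pos.2 (by positivity)
  have h3 : (0 : ℝ) < (m.factorial : ℝ) := by exact_mod_cast Nat.factorial_pos m
  have := Real.pi_pos
  positivity

theorem pf_TMGr (hTM : T_TMr) (hPVF : T_PVFr) (hVOL : T_VOLr) (hWGT : T_WGTr) (hGRD : T_GRD)
    (hGML : Pool.Agent.H89.FC.T_GMLc) (hFDU : T_FDUr) (hDDX : T_DDX) (hHOL : T_HOLr)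
    (hPBT : T_PBT) (hPBG : T_PBG) (hUWN : T_UWN) (hFLF : Pool.Agent.H95.FC.T_FLF) : T_TMGr := by
  classical
  intro ε hε
  obtain ⟨e, he⟩ : ∃ e : ℝ, e = ε / 8 := ⟨_, rfl⟩
  have he0 : 0 < e := by rw [he]; positivity
  obtain ⟨κ₁, hκ₁, hκ₁', δ, hδ, C₁, k₁, hC₁, hTM'⟩ := hTM e he0
  obtain ⟨C₂, hC₂, hVOL'⟩ := hVOL e he0
  obtain ⟨C₃, hC₃, hALL⟩ := all_pairs hWGT hFDU hPBT hPBG hUWN hFLF
  obtain ⟨C₄, k₄, hC₄, hGML'⟩ := hGML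
  refine ⟨min κ₁ e, lt_min hκ₁ he0, (min_le_left _ _).trans hκ₁', δ, hδ,
    C₂ * (C₃ * (1 + 1 / e)) * C₁ * C₄ ^ 2 + 1, 2 * k₄ + k₁, by positivity, ?_⟩
  intro m q p s X V N α K _ _ σ σ' S f κ ν F hs hX hN hNX hα hp hFam hκq hAn
  have hX0 : 0 < X := by linarith
  have hs₁ : |s.re - 1 / 2| ≤ κ₁ := hs.trans (min_le_left _ _)
  have hse : |s.re - 1 / 2| ≤ e := hs.trans (min_le_right _ _)
  have hs8 : |s.re - 1 / 2| ≤ 1 / 8 := hs₁.trans hκ₁'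
  have hsa := abs_le.1 hs8
  have hsb := abs_le.1 hse
  have hs0 : 0 < s.re := by linarith
  have hs1 : s ≠ 1 := by
    rintro rfl
    norm_num at hsa
  set I : Finset (ℕ × ℕ) := S.image (fun x => (x.1, f x)) with hI
  have hIx : ∀ pr ∈ I, ∃ x ∈ S, (x.1, f x) = pr := fun pr hpr => Finset.mem_image.1 hpr
  have hpr : ∀ pr : {pr // pr ∈ I}, RQ (K pr.1.1) pr.1.1 (σ pr.1.1) (σ' pr.1.1) ∧ 1 ≤ pr.1.2 ∧
        (pr.1.1 : ℝ) * (pr.1.2 : ℝ) ^ 2 ≤ X ∧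
        ∀ Q : QF, -(dsc Q) = (pr.1.1 : ℤ) * (pr.1.2 : ℤ) ^ 2 → Anis p Q := by
    rintro ⟨pr, hp'⟩
    obtain ⟨x, hx, rfl⟩ := hIx pr hp'
    exact ⟨hFam.rq x hx, (hFam.ch x hx).pos, (hFam.q x hx).2, hAn x hx⟩
  have hRx : ∀ pr : {pr // pr ∈ I},
      Nonempty (DD (K pr.1.1) pr.1.1 pr.1.2 (σ pr.1.1) (σ' pr.1.1)) :=
    fun pr => hDDX _ _ _ _ _ (hpr pr).1 (hpr pr).2.1
  set R : ∀ pr : {pr // pr ∈ I}, DD (K pr.1.1) pr.1.1 pr.1.2 (σ pr.1.1) (σ' pr.1.1) :=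
    fun pr => Classical.choice (hRx pr) with hR
  have hL1 : ∀ pr : {pr // pr ∈ I}, (1 : ℝ) ≤ (pr.1.1 : ℝ) * (pr.1.2 : ℝ) ^ 2 := by
    intro pr
    have h3 : (1 : ℝ) ≤ pr.1.1 := by exact_mod_cast (hpr pr).1.pos
    have h4 : (1 : ℝ) ≤ pr.1.2 := by exact_mod_cast (hpr pr).2.1
    nlinarith [mul_le_mul h4 h4 zero_le_one (by positivity)]
  set T : ℝ := 1 + |s.im| + |(m : ℝ)| with hT
  have hT1 : 1 ≤ T := by
    have := abs_nonneg s.im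
    have := abs_nonneg (m : ℝ)
    linarith
  have hab : ((m.natAbs : ℕ) : ℝ) = |(m : ℝ)| := by
    rw [Nat.cast_natAbs, Int.cast_abs]
  have hg := hGML' m.natAbs s hs8
  rw [hab] at hg
  have hc := cG_nonneg m.natAbs s.im
  set c2 : ℝ := cG m.natAbs s.im ^ 2 with hc2
  have hc20 : 0 < c2 := by positivity
  have hg2 : c2 ≤ C₄ ^ 2 * T ^ (2 * k₄) * ‖gM m.natAbs s‖ ^ 2 := by
    calc c2 ≤ (C₄ * T ^ k₄ * ‖gM m.natAbs s‖) ^ 2 := pow_le_pow_left₀ hc.le hg 2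
      _ = _ := by ring
  -- one pair
  have hone : ∀ pr : {pr // pr ∈ I}, ∃ (n₁ n₂ : (Σ _ : ClassGroup (𝓞 (K pr.1.1)), ℤ × ℤ) → ℕ)
      (t₁ t₂ : (Σ _ : ClassGroup (𝓞 (K pr.1.1)), ℤ × ℤ) → ℕ → ℝ),
      Grd (R pr) n₁ t₁ ∧ Grd (R pr) n₂ t₂ ∧
      (∑ ψ ∈ (S.preimage (Sigma.mk pr.1.1) sigma_mk_injective.injOn).filter
        (fun ψ => f ⟨pr.1.1, ψ⟩ = pr.1.2), ‖∑ n ∈ Sq N, α n * lc ψ n‖ ^ 2 *
          ‖F ⟨pr.1.1, ψ⟩ s‖ ^ 2 * ‖crr q m (ν ⟨pr.1.1, ψ⟩) s‖ ^ 2) * ‖gM m.natAbs s‖ ^ 2 ≤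
        C₂ * X ^ (2 * e) * ((∑ j ∈ (R pr).J, Tj (R pr) m s α N n₁ t₁ j +
          ∑ j ∈ (R pr).J, Tj (R pr) (-m) s α N n₂ t₂ j) / 2) := by
    intro pr
    have hv := hVOL' (K pr.1.1) pr.1.1 pr.1.2 (σ pr.1.1) (σ' pr.1.1) (hpr pr).1 (hpr pr).2.1
      (R pr)
    obtain ⟨n₁, n₂, t₁, t₂, h1, h2, h3⟩ := one_pair hPVF hGRD hHOL hPBT hUWN (K pr.1.1) pr.1.1
      pr.1.2 (σ pr.1.1) (σ' pr.1.1) (hpr pr).1 (hpr pr).2.1 (R pr) q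
      ((S.preimage (Sigma.mk pr.1.1) sigma_mk_injective.injOn).filter
        (fun ψ => f ⟨pr.1.1, ψ⟩ = pr.1.2)) (fun ψ => ν ⟨pr.1.1, ψ⟩) (fun ψ => F ⟨pr.1.1, ψ⟩)
      (by
        intro ψ hψ
        rw [Finset.mem_filter, Finset.mem_preimage] at hψ
        obtain ⟨h4, h5⟩ := hψ
        have h6 := hFam.ch _ h4
        rw [h5, hκq _ h4] at h6
        exact ⟨h6, hFam.lf _ h4⟩) m s N α hs0 hs1
      (C₂ * ((pr.1.1 : ℝ) * (pr.1.2 : ℝ) ^ 2) ^ (1 / 2 + e))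
      (by
        refine hv.trans (le_of_eq ?_)
        ring)
    refine ⟨n₁, n₂, t₁, t₂, h1, h2, ?_⟩
    set L : ℝ := (pr.1.1 : ℝ) * (pr.1.2 : ℝ) ^ 2 with hL
    have hL1' : 1 ≤ L := hL1 pr
    have hLX : L ≤ X := (hpr pr).2.2.1
    have hL0 : 0 < L := by linarith
    have hT0 : ∀ (m' : ℤ) (n : (Σ _ : ClassGroup (𝓞 (K pr.1.1)), ℤ × ℤ) → ℕ)
        (t : (Σ _ : ClassGroup (𝓞 (K pr.1.1)), ℤ × ℤ) → ℕ → ℝ)
        (j : Σ _ : ClassGroup (𝓞 (K pr.1.1)), ℤ × ℤ), 0 ≤ Tj (R pr) m' s α N n t j := by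
      intro m' n t j
      have hP := (hUWN _ _ _ _ _ (hpr pr).1 (R pr).η (R pr).un).1
      unfold Tj
      exact Finset.sum_nonneg fun i _ => mul_nonneg (div_nonneg (div_nonneg hP.le
        (Nat.cast_nonneg _)) (Nat.cast_nonneg _)) (by positivity)
    have hB0 : 0 ≤ (∑ j ∈ (R pr).J, Tj (R pr) m s α N n₁ t₁ j +
          ∑ j ∈ (R pr).J, Tj (R pr) (-m) s α N n₂ t₂ j) / 2 := by
      have h4 : 0 ≤ ∑ j ∈ (R pr).J, Tj (R pr) m s α N n₁ t₁ j :=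
        Finset.sum_nonneg fun j _ => hT0 _ _ _ _
      have h5 : 0 ≤ ∑ j ∈ (R pr).J, Tj (R pr) (-m) s α N n₂ t₂ j :=
        Finset.sum_nonneg fun j _ => hT0 _ _ _ _
      linarith
    have hLs : L ^ (1 / 2 + e) ≤ X ^ (2 * e) * L ^ s.re := by
      calc L ^ (1 / 2 + e) = L ^ (1 / 2 + e - s.re) * L ^ s.re := by
            rw [← Real.rpow_add hL0]
            congr 1
            ring
        _ ≤ X ^ (2 * e) * L ^ s.re := by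
            refine mul_le_mul_of_nonneg_right ?_ (Real.rpow_nonneg hL0.le _)
            calc L ^ (1 / 2 + e - s.re) ≤ L ^ (2 * e) :=
                  Real.rpow_le_rpow_of_exponent_le hL1' (by linarith [hsb.1])
              _ ≤ X ^ (2 * e) := Real.rpow_le_rpow hL0.le hLX (by linarith)
    have hLp : 0 < L ^ s.re := Real.rpow_pos_of_pos hL0 _
    refine le_of_mul_le_mul_right ?_ hLp
    calc _ = (∑ ψ ∈ (S.preimage (Sigma.mk pr.1.1) sigma_mk_injective.injOn).filter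
        (fun ψ => f ⟨pr.1.1, ψ⟩ = pr.1.2), ‖∑ n ∈ Sq N, α n * lc ψ n‖ ^ 2 *
          ‖F ⟨pr.1.1, ψ⟩ s‖ ^ 2 * ‖crr q m (ν ⟨pr.1.1, ψ⟩) s‖ ^ 2) *
          (‖gM m.natAbs s‖ ^ 2 * L ^ s.re) := by ring
      _ ≤ _ := h3
      _ ≤ C₂ * (X ^ (2 * e) * L ^ s.re) * _ :=
          mul_le_mul_of_nonneg_right (mul_le_mul_of_nonneg_left hLs hC₂.le) hB0
      _ = _ := by ring
  choose n₁ n₂ t₁ t₂ hg₁ hg₂ hone' using hone
  have hA1 := hALL e κ₁ δ C₁ k₁ he0 hC₁ hTM' m s X p N α K σ σ' I R n₁ t₁ hs₁ hX hN hNX hα hp hpr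
    hg₁
  have hA2 := hALL e κ₁ δ C₁ k₁ he0 hC₁ hTM' (-m) s X p N α K σ σ' I R n₂ t₂ hs₁ hX hN hNX hα hp
    hpr hg₂
  have hneg : |(((-m : ℤ)) : ℝ)| = |(m : ℝ)| := by
    push_cast
    exact abs_neg _
  rw [hneg, Int.natAbs_neg] at hA2
  set Bd : ℝ := (C₃ * (1 + 1 / e) * X ^ e) * C₁ * (p : ℝ) ^ 3 * T ^ k₁ *
          cG m.natAbs s.im ^ 2 * X ^ (3 / 2 + e / 2) * N with hBd
  have hsum : (∑ x ∈ S, ‖∑ n ∈ Sq N, α n * lc x.2 n‖ ^ 2 * ‖F x s‖ ^ 2 *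
      ‖crr q m (ν x) s‖ ^ 2) * ‖gM m.natAbs s‖ ^ 2 ≤ C₂ * X ^ (2 * e) * Bd := by
    rw [regroup S f, ← hI, Finset.sum_mul, ← Finset.sum_attach]
    calc _ ≤ ∑ pr ∈ I.attach, C₂ * X ^ (2 * e) *
          ((∑ j ∈ (R pr).J, Tj (R pr) m s α N (n₁ pr) (t₁ pr) j +
          ∑ j ∈ (R pr).J, Tj (R pr) (-m) s α N (n₂ pr) (t₂ pr) j) / 2) :=
          Finset.sum_le_sum fun pr _ => hone' pr
      _ = C₂ * X ^ (2 * e) * ((∑ pr ∈ I.attach, ∑ j ∈ (R pr).J,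
          Tj (R pr) m s α N (n₁ pr) (t₁ pr) j + ∑ pr ∈ I.attach,
          ∑ j ∈ (R pr).J, Tj (R pr) (-m) s α N (n₂ pr) (t₂ pr) j) / 2) := by
          rw [← Finset.mul_sum, ← Finset.sum_div, Finset.sum_add_distrib]
      _ ≤ C₂ * X ^ (2 * e) * Bd := by
          refine mul_le_mul_of_nonneg_left ?_ (by positivity)
          linarith
  set A : ℝ := ∑ x ∈ S, ‖∑ n ∈ Sq N, α n * lc x.2 n‖ ^ 2 * ‖F x s‖ ^ 2 *
      ‖crr q m (ν x) s‖ ^ 2 with hA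
  have hA0 : 0 ≤ A := Finset.sum_nonneg fun x _ => by positivity
  have h1 : A * c2 ≤ (C₂ * (C₃ * (1 + 1 / e)) * C₁ * C₄ ^ 2 * (p : ℝ) ^ 3 * T ^ (2 * k₄ + k₁) *
      (X ^ (2 * e) * X ^ e * X ^ (3 / 2 + e / 2)) * N) * c2 := by
    calc A * c2 ≤ A * (C₄ ^ 2 * T ^ (2 * k₄) * ‖gM m.natAbs s‖ ^ 2) :=
          mul_le_mul_of_nonneg_left hg2 hA0
      _ = C₄ ^ 2 * T ^ (2 * k₄) * (A * ‖gM m.natAbs s‖ ^ 2) := by ring
      _ ≤ C₄ ^ 2 * T ^ (2 * k₄) * (C₂ * X ^ (2 * e) * Bd) :=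
          mul_le_mul_of_nonneg_left hsum (by positivity)
      _ = _ := by
          rw [hBd, pow_add, ← hc2]
          ring
  have h2 := le_of_mul_le_mul_right h1 hc20
  have h3 : X ^ (2 * e) * X ^ e * X ^ (3 / 2 + e / 2) ≤ X ^ (3 / 2 + ε) := by
    rw [← Real.rpow_add hX0, ← Real.rpow_add hX0]
    refine Real.rpow_le_rpow_of_exponent_le hX ?_
    rw [he]
    linarith
  calc A ≤ _ := h2
    _ ≤ C₂ * (C₃ * (1 + 1 / e)) * C₁ * C₄ ^ 2 * (p : ℝ) ^ 3 * T ^ (2 * k₄ + k₁) *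
        X ^ (3 / 2 + ε) * N := by
        refine mul_le_mul_of_nonneg_right (mul_le_mul_of_nonneg_left h3 ?_) (Nat.cast_nonneg _)
        have : (0 : ℝ) ≤ (p : ℝ) ^ 3 := by positivity
        positivity
    _ ≤ _ := by
        refine mul_le_mul_of_nonneg_right (mul_le_mul_of_nonneg_right
          (mul_le_mul_of_nonneg_right (mul_le_mul_of_nonneg_right ?_ (by positivity))
          (by positivity)) (Real.rpow_nonneg hX0.le _)) (Nat.cast_nonneg _)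
        linarith

end Pool.Agent.H95.DF
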