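import Pool.Agent.H95.DR.Targets
import Pool.Agent.H29.DF.Targets

/-!
# The number of the characters with bounded spectral parameters
-/

set_option autoImplicit false

open MeasureTheory Set Filter NumberField
open scoped Real nonZeroDivisors Matrix MatrixGroups
open Pool.Agent.H31.CN Pool.Agent.H89.FM Pool.Agent.H61.FM Pool.Agent.H89.FC Pool.Agent.H95.FC
open Pool.Agent.H89.DF Pool.Agent.H95.DR

namespace Pool.Agent.H95.DF

theorem pf_HBDr (hEX2 : Pool.Agent.H29.DF.T_EX2) (hLC1 : T_LC1r) : T_HBDr := by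
  classical
  intro ε hε
  obtain ⟨C, hC, h⟩ := hEX2 ε hε
  refine ⟨4 * C, by positivity, ?_⟩
  intro K _ _ σ σ' D f V Ψ κ ν hRQ hV hΨ
  by_cases hne : Ψ = ∅
  · rw [hne]
    simp only [Finset.card_empty, Nat.cast_zero]
    have h1 : (0 : ℝ) ≤ (D : ℝ) * (f : ℝ) ^ 2 := by positivity
    have h2 := Real.rpow_nonneg h1 (1 / 2 + ε)
    positivity
  obtain ⟨ψ₀, hψ₀⟩ := Finset.nonempty_iff_ne_empty.2 hne
  have hf : 1 ≤ f := (hΨ ψ₀ hψ₀).1.pos
  set L : ℝ := (D : ℝ) * (f : ℝ) ^ 2 with hL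
  have hL1 : 1 ≤ L := by
    have h3 : (1 : ℝ) ≤ D := by exact_mod_cast hRQ.pos
    have h4 : (1 : ℝ) ≤ f := by exact_mod_cast hf
    rw [hL]
    nlinarith [mul_le_mul h4 h4 zero_le_one (by positivity)]
  have hL0 : 0 < L := by linarith
  have hSq : Sq 1 = {1} := by
    unfold Sq
    rw [Finset.Icc_self, Finset.filter_singleton, if_pos squarefree_one]
  have hfix : ∀ q : ℕ, ((Ψ.filter (fun ψ => κ ψ = q)).card : ℝ) ≤
      2 * C * V * L ^ (1 / 2 + ε) := by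
    intro q
    have h1 := h K σ σ' D f q 1 V (fun _ => 1) (Ψ.filter (fun ψ => κ ψ = q)) ν hRQ hV le_rfl
      (fun _ => by simp) (by
        intro ψ hψ
        rw [Finset.mem_filter] at hψ
        have h2 := hΨ ψ hψ.1
        rw [hψ.2] at h2
        exact h2)
    have h2 : ∑ ψ ∈ Ψ.filter (fun ψ => κ ψ = q), ‖∑ n ∈ Sq 1, (1 : ℂ) * lc ψ n‖ ^ 2 =
        ((Ψ.filter (fun ψ => κ ψ = q)).card : ℝ) := by
      rw [Finset.card_eq_sum_ones, Nat.cast_sum]
      refine Finset.sum_congr rfl fun ψ hψ => ?_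
      rw [Finset.mem_filter] at hψ
      have h3 := (hLC1 K σ σ' f (κ ψ) (ν ψ) ψ (hΨ ψ hψ.1).1).1
      rw [hSq, Finset.sum_singleton, h3]
      simp
    rw [h2] at h1
    refine h1.trans ?_
    rw [Nat.cast_one, Real.one_rpow, mul_one]
    have h3 : (1 : ℝ) ≤ L ^ (1 / 2 : ℝ) := Real.one_le_rpow hL1 (by norm_num)
    have h4 : L ^ (1 / 2 + ε) = L ^ (1 / 2 : ℝ) * L ^ ε := Real.rpow_add hL0 _ _
    rw [h4]
    have h5 : 0 < L ^ ε := Real.rpow_pos_of_pos hL0 _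
    calc C * V * (L ^ (1 / 2 : ℝ) + 1) * L ^ ε ≤ C * V * (L ^ (1 / 2 : ℝ) + L ^ (1 / 2 : ℝ)) *
          L ^ ε := by gcongr
      _ = _ := by ring
  have hsplit : Ψ = Ψ.filter (fun ψ => κ ψ = 0) ∪ Ψ.filter (fun ψ => κ ψ = 1) := by
    ext ψ
    rw [Finset.mem_union, Finset.mem_filter, Finset.mem_filter]
    constructor
    · intro h1
      have h2 := (hΨ ψ h1).1.kap
      interval_cases h3 : κ ψ
      · exact Or.inl ⟨h1, rfl⟩
      · exact Or.inr ⟨h1, rfl⟩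
    · rintro (h1 | h1)
      · exact h1.1
      · exact h1.1
  have hc : (Ψ.card : ℝ) ≤ 2 * C * V * L ^ (1 / 2 + ε) + 2 * C * V * L ^ (1 / 2 + ε) := by
    have h1 : Ψ.card ≤ (Ψ.filter (fun ψ => κ ψ = 0)).card +
        (Ψ.filter (fun ψ => κ ψ = 1)).card := by
      conv_lhs => rw [hsplit]
      exact Finset.card_union_le _ _
    calc (Ψ.card : ℝ) ≤ ((Ψ.filter (fun ψ => κ ψ = 0)).card : ℝ) +
          ((Ψ.filter (fun ψ => κ ψ = 1)).card : ℝ) := by exact_mod_cast h1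
      _ ≤ _ := add_le_add (hfix 0) (hfix 1)
  have h6 : 0 < L ^ (1 / 2 + ε) := Real.rpow_pos_of_pos hL0 _
  calc (Ψ.card : ℝ) ≤ 4 * C * V * L ^ (1 / 2 + ε) := by linarith
    _ ≤ 4 * C * V ^ 2 * L ^ (1 / 2 + ε) := by
        have h7 : V ≤ V ^ 2 := by nlinarith
        gcongr

end Pool.Agent.H95.DF
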